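import Pool.Agent.U104.KAb.Final

/-! # The exact maximum for `k = 1`

The definitions are in `Pool/Agent/U104/KAb/Basic.lean` and `Final.lean`:

* `occ u t` is the number of occurrences of the word `t` as a factor of `u`;
* `KEquiv k u v` is `k`-abelian equivalence (`occ u t = occ v t` for every `t` of length at most `k`);
* `KPal k v` says that `v` is a `k`-palindrome (`v` is `k`-abelian equivalent to its reversal);
* `Pal k w` is the number of classes of `k`-abelian equivalence which contain a factor of `w` which
  is a `k`-palindrome;
* `M k l n` is the largest value of `Pal k w` for words `w` of length `n` over `l` letters. -/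

set_option autoImplicit false

namespace Pool.Agent.Results.MP_d67245_co.AbelianCase

open Pool.Agent.U104.KAb

/-- **The case `k = 1`, all alphabets, all lengths.** The maximum `M 1 l n` is `n + 1` plus the
number of edges of the Turán graph with `n` vertices and `l` parts. -/
theorem result (l n : ℕ) (hl : 1 ≤ l) :
    IsGreatest {c | ∃ w : List (Fin l), w.length = n ∧ Pal 1 w = c} (M 1 l n) ∧
    M 1 l n = n + 1 + (SimpleGraph.turanGraph n l).edgeFinset.card ∧
    M 1 l n = n + 1 + ((n ^ 2 - (n % l) ^ 2) * (l - 1) / (2 * l) + (n % l).choose 2) := by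
  refine ⟨⟨Nat.sSup_mem (ne hl) (bdd 1 l n le_rfl), fun c hc => le_csSup (bdd 1 l n le_rfl) hc⟩,
    ?_, M_one l n hl⟩
  rw [SimpleGraph.card_edgeFinset_turanGraph]
  exact M_one l n hl

end Pool.Agent.Results.MP_d67245_co.AbelianCase
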