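import Pool.Agent.U104.KAb.Final

/-! # The growth of the largest number of `k`-abelian palindromic classes

The definitions are in `Pool/Agent/U104/KAb/Basic.lean`, `Final.lean` and `Exact.lean`:

* `occ u t` is the number of occurrences of the word `t` as a factor of `u`;
* `KEquiv k u v` is `k`-abelian equivalence (`occ u t = occ v t` for every `t` of length at most `k`);
* `KPal k v` says that `v` is a `k`-palindrome (`v` is `k`-abelian equivalent to its reversal);
* `Pal k w` is the number of classes of `k`-abelian equivalence which contain a factor of `w` which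
  is a `k`-palindrome;
* `M k l n` is the largest value of `Pal k w` for words `w` of length `n` over `l` letters;
* `turan n l` is the number of edges of the Turán graph with `n` vertices and `l` parts. -/

set_option autoImplicit false

namespace Pool.Agent.Results.MP_d67245_co.GrowthConstants

open Pool.Agent.U104.KAb

/-- **The quadratic growth of `M k l n`, up to a factor two for large `k`, uniformly in the
alphabet.** `M k l n` is the maximum it is meant to be (first clause).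

Upper bound: for `k ≥ 2`, every alphabet and every `n`,
`2 ⌊k/2⌋ * M k l n ≤ (n + 1) ^ 2 + 4 ⌊k/2⌋ (n + 1)`.

Lower bound: for `k ≥ 1`, at least two letters, `B ≥ 1` and `4 k + N (2 k + B) ≤ 2 n`,
`k * (N + 1 + turan N B) ≤ M k l n`.

Hence for every `ε > 0` there is `k₀` such that for all `k ≥ k₀`, all large `n` and all `l ≥ 2`,
`(1/2 - ε) n ^ 2 ≤ k * M k l n ≤ (1 + ε) n ^ 2`. -/
theorem result :
    (∀ k l n : ℕ, 1 ≤ k → 1 ≤ l →
      IsGreatest {c | ∃ w : List (Fin l), w.length = n ∧ Pal k w = c} (M k l n)) ∧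
    (∀ k l n : ℕ, 2 ≤ k → 1 ≤ l →
      2 * (k / 2) * M k l n ≤ (n + 1) ^ 2 + 4 * (k / 2) * (n + 1)) ∧
    (∀ k l B N n : ℕ, 1 ≤ k → 2 ≤ l → 1 ≤ B → 4 * k + N * (2 * k + B) ≤ 2 * n →
      k * (N + 1 + turan N B) ≤ M k l n) ∧
    (∀ ε : ℝ, 0 < ε → ∃ k₀ : ℕ, ∀ k ≥ k₀, ∃ n₀ : ℕ, ∀ n ≥ n₀, ∀ l ≥ 2,
      (1 / 2 - ε) * (n : ℝ) ^ 2 ≤ (k : ℝ) * M k l n ∧
        (k : ℝ) * M k l n ≤ (1 + ε) * (n : ℝ) ^ 2) := by
  refine ⟨fun k l n hk hl =>
      ⟨Nat.sSup_mem (ne hl) (bdd k l n hk), fun c hc => le_csSup (bdd k l n hk) hc⟩,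
    fun k l n hk hl => M_upper k l n hk hl,
    fun k l B N n hk hl hB hn => M_lower k l B N n hk hl hB hn, ?_⟩
  intro ε hε
  obtain ⟨k₁, h1⟩ := asym_lower hε
  obtain ⟨k₂, h2⟩ := asym_upper hε
  refine ⟨max k₁ k₂, fun k hk => ?_⟩
  obtain ⟨n₁, h1⟩ := h1 k (le_trans (le_max_left _ _) hk)
  obtain ⟨n₂, h2⟩ := h2 k (le_trans (le_max_right _ _) hk)
  refine ⟨max n₁ n₂, fun n hn l hl => ⟨h1 n (le_trans (le_max_left _ _) hn) l hl,
    h2 n (le_trans (le_max_right _ _) hn) l (by omega)⟩⟩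

end Pool.Agent.Results.MP_d67245_co.GrowthConstants
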